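import Mathlib
import Pool.Agent.Helper43.Gm.Main2

/-!
Non-speciality of all reduced plane linear systems outside a window of quadratic size in the tenth
multiplicity.
-/

set_option autoImplicit false

namespace Pool.Agent.Helper66.SB.Parked

/-- Let `m_0 ≥ m_1 ≥ ... ≥ m_{s-1} ≥ 0` (zero beyond), `d ≥ m_0 + m_1 + m_2`,
`e = C(d+2,2) − ∑ C(m_i+1,2)` and `n = #{i : m_i = 1}`. If `19 m_9 ^ 2 ≤ n + e` or
`15 m_9 ^ 2 ≤ - e`, then for general points the space of degree-`d` forms with multiplicity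
`≥ m_i` at `P_i` has dimension `max(e, 0)`. -/
theorem result :
    ∀ (s : ℕ) (m : ℕ → ℕ) (d : ℕ), Antitone m → (∀ i, s ≤ i → m i = 0) →
      m 0 + m 1 + m 2 ≤ d →
      (19 * (m 9 : ℤ) ^ 2 ≤
          ((Finset.univ.filter (fun i : Fin s => m (i : ℕ) = 1)).card : ℤ) +
            ((Nat.choose (d + 2) 2 : ℤ) - ∑ i : Fin s, (Nat.choose (m (i : ℕ) + 1) 2 : ℤ)) ∨
        15 * (m 9 : ℤ) ^ 2 ≤
          - ((Nat.choose (d + 2) 2 : ℤ) - ∑ i : Fin s, (Nat.choose (m (i : ℕ) + 1) 2 : ℤ))) →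
      ∃ G : MvPolynomial (Fin s × Fin 3) ℂ, G ≠ 0 ∧
        ∀ P : Fin s → Fin 3 → ℂ, (∀ i, P i ≠ 0) →
          MvPolynomial.eval (fun ij : Fin s × Fin 3 => P ij.1 ij.2) G ≠ 0 →
          (Module.finrank ℂ
            (↥(MvPolynomial.homogeneousSubmodule (Fin 3) ℂ d ⊓
              ⨅ i : Fin s, Submodule.restrictScalars ℂ
                ((Ideal.span {g : MvPolynomial (Fin 3) ℂ |
                    g.IsHomogeneous 1 ∧ MvPolynomial.eval (P i) g = 0}) ^ (m (i : ℕ))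
                  : Ideal (MvPolynomial (Fin 3) ℂ)))) : ℤ)
            = max ((Nat.choose (d + 2) 2 : ℤ) -
                ∑ i : Fin s, (Nat.choose (m (i : ℕ) + 1) 2 : ℤ)) 0 :=
  Pool.Agent.Helper43.Gm.main_reduced

end Pool.Agent.Helper66.SB.Parked
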